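import Pool.Agent.MWGX.StmtsB

/-!
# MWGX, row MPG: positions in the main case (twin of `Pool.Agent.MWGN.H26.mpo`)
-/

set_option autoImplicit false

namespace Pool.Agent.MWGX.H25

open Pool.Agent.Helper14_MV Pool.Agent.Helper2_MV
open Pool.Agent.MWK (pre)
open Pool.Agent.MWGN (nn Nm WC WT Tau Ns nl sg)
open Pool.Agent.MWGX

theorem mpg : MpgStmt := by
  intro ν m nc hnc p E F A G B H w hw hG hE hAE hBE hWC hx hy
  obtain ⟨Q, hQ⟩ : ∃ Q, Q = p ++ (E ++ F) := ⟨_, rfl⟩
  have hwQ : w = Q ++ (A ++ (G ++ (B ++ H))) := by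
    rw [hw, hQ]; simp only [List.append_assoc]
  have cx : 0 < A.count ν.x := List.count_pos_iff.2 hx
  have cy : 0 < B.count ν.y := List.count_pos_iff.2 hy
  have cxE : 0 < E.count ν.x := List.count_pos_iff.2 (hAE _ hx)
  have cyE : 0 < E.count ν.y := List.count_pos_iff.2 (hBE _ hy)
  have hQc : ∀ c, Q.count c = p.count c + (E.count c + F.count c) := by
    intro c; rw [hQ]; simp only [List.count_append]
  have hwc : ∀ c, w.count c = Q.count c + (A.count c + (G.count c + (B.count c + H.count c))) := by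
    intro c; rw [hwQ]; simp only [List.count_append]
  -- simple letters do not occur in E, A, B, G
  have simp1 : ∀ s, w.count s = 1 → s ∉ E ∧ s ∉ A ∧ s ∉ B ∧ s ∉ G := by
    intro s hs
    have h1 : s ∉ E := fun h => by have := hE s h; omega
    exact ⟨h1, fun h => h1 (hAE s h), fun h => h1 (hBE s h), fun h => by have := hG s h; omega⟩
  -- the lights are not in Q
  have hLQ : ∀ i ≤ m + 1, ν.L i ∉ Q := by
    intro i hi hmem
    have h1 := hWC.xl i hi
    have h2 : pre w (ν.L i) = pre Q (ν.L i) := by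
      rw [hwQ]; exact MWK.pre_append_mem hmem _
    have h3 : nn w ν.x (ν.L i) ≤ Q.count ν.x := by
      unfold nn; rw [h2]; exact MWK.count_pre_le Q ν.x (ν.L i)
    have h4 := hwc ν.x
    omega
  have hQmem : ∀ c, c ∉ Q → c ∉ p ∧ c ∉ E ∧ c ∉ F ∧ c ∉ A ∧ c ∉ B := by
    intro c hc
    rw [hQ] at hc
    simp only [List.mem_append, not_or] at hc
    exact ⟨hc.1, hc.2.1, hc.2.2, fun h => hc.2.1 (hAE c h), fun h => hc.2.1 (hBE c h)⟩
  -- the prefix in front of a letter outside Q
  have hpre : ∀ c, c ∉ Q → pre w c = Q ++ (A ++ pre (G ++ (B ++ H)) c) := by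
    intro c hc
    rw [hwQ, MWK.pre_append hc, MWK.pre_append (hQmem c hc).2.2.2.1]
  have hLG : ∀ i ≤ m + 1, ν.L i ∈ G := by
    intro i hi
    by_contra hn
    have h1 := hWC.yl i hi
    have h2 := hpre _ (hLQ i hi)
    rw [MWK.pre_append hn, MWK.pre_append (hQmem _ (hLQ i hi)).2.2.2.2] at h2
    have h3 : nn w ν.y (ν.L i) = Q.count ν.y + (A.count ν.y + (G.count ν.y + (B.count ν.y
        + (pre H (ν.L i)).count ν.y))) := by
      unfold nn; rw [h2]; simp only [List.count_append]
    have h4 := hQc ν.y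
    omega
  have hLpre : ∀ i ≤ m + 1, pre w (ν.L i) = Q ++ (A ++ pre G (ν.L i)) := by
    intro i hi
    rw [hpre _ (hLQ i hi), MWK.pre_append_mem (hLG i hi)]
  have ha := simp1 ν.a hWC.sa
  have hb := simp1 ν.b hWC.sb
  have hbw : ν.b ∈ w := List.count_pos_iff.1 (by rw [hWC.sb]; exact Nat.one_pos)
  have haF : ν.a ∈ F := by
    by_contra hn
    have hy1 := hWC.yl 0 (Nat.zero_le _)
    by_cases hap : ν.a ∈ p
    · have h1 : pre w ν.a = pre p ν.a := by rw [hw]; exact MWK.pre_append_mem hap _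
      have h2 : nn w ν.y ν.a ≤ p.count ν.y := by
        unfold nn; rw [h1]; exact MWK.count_pre_le p ν.y ν.a
      have h3 := hWC.ya
      have h4 := hQc ν.y
      have h5 : nn w ν.y (ν.L 0) = Q.count ν.y + (A.count ν.y + (pre G (ν.L 0)).count ν.y) := by
        unfold nn; rw [hLpre 0 (Nat.zero_le _)]; simp only [List.count_append]
      omega
    · have haQ : ν.a ∉ Q := by
        rw [hQ]
        simp only [List.mem_append, not_or]
        exact ⟨hap, ha.1, hn⟩
      have h1 := hpre _ haQ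
      have h2 : nn w ν.x ν.a = Q.count ν.x + (A.count ν.x
          + (pre (G ++ (B ++ H)) ν.a).count ν.x) := by
        unfold nn; rw [h1]; simp only [List.count_append]
      have h3 := hQc ν.x
      have h4 := hWC.xa
      omega
  have hbQ : ν.b ∉ Q := by
    intro hmem
    have h1 : pre w ν.b = pre Q ν.b := by rw [hwQ]; exact MWK.pre_append_mem hmem _
    have h2 := hWC.lb 0 (Nat.zero_le _)
    have h3 : nn w (ν.L 0) ν.b ≤ Q.count (ν.L 0) := by
      unfold nn; rw [h1]; exact MWK.count_pre_le Q _ _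
    have h4 : Q.count (ν.L 0) = 0 := List.count_eq_zero.2 (hLQ 0 (Nat.zero_le _))
    omega
  have hbH : ν.b ∈ H := by
    rw [hwQ] at hbw
    simp only [List.mem_append] at hbw
    rcases hbw with h | h | h | h | h
    · exact absurd h hbQ
    · exact absurd h hb.2.1
    · exact absurd h hb.2.2.2
    · exact absurd h hb.2.2.1
    · exact h
  have hbpre : pre w ν.b = Q ++ (A ++ (G ++ (B ++ pre H ν.b))) := by
    rw [hpre _ hbQ, MWK.pre_append hb.2.2.2, MWK.pre_append hb.2.2.1]
  refine ⟨haF, hbH, fun i hi => ?_, fun i hi => ?_⟩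
  · obtain ⟨h1, h2, h3, h4, h5⟩ := hQmem _ (hLQ i hi)
    refine ⟨h1, h2, h3, h4, h5, ?_, ?_⟩
    · have h5 := hWC.lb i hi
      have h6 : nn w (ν.L i) ν.b = Q.count (ν.L i) + (A.count (ν.L i) + (G.count (ν.L i)
          + (B.count (ν.L i) + (pre H ν.b).count (ν.L i)))) := by
        unfold nn; rw [hbpre]; simp only [List.count_append]
      have h7 : 0 < G.count (ν.L i) := List.count_pos_iff.2 (hLG i hi)
      omega
    · rw [hLpre i hi, hQ]; simp only [List.append_assoc]
  · have hj0 : ∀ j ≤ i, ν.C i ∉ Q ∧ ν.C i ∉ A ∧ ν.C i ∉ pre G (ν.L j) := by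
      intro j hj
      have h1 := hWC.cl0 i hi j hj
      have h2 : ν.C i ∉ pre w (ν.L j) := by
        intro h
        have := List.count_pos_iff.2 h
        unfold nn at h1
        omega
      rw [hLpre j (by omega)] at h2
      simp only [List.mem_append, not_or] at h2
      exact ⟨h2.1, h2.2.1, h2.2.2⟩
    obtain ⟨hCQ, hCA, -⟩ := hj0 0 (Nat.zero_le _)
    have zQ : Q.count (ν.C i) = 0 := List.count_eq_zero.2 hCQ
    have zA : A.count (ν.C i) = 0 := List.count_eq_zero.2 hCA
    have h2c := hWC.c2 i hi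
    have hj1 : ∀ j, i < j → j ≤ m + 1 → (pre G (ν.L j)).count (ν.C i) = w.count (ν.C i) := by
      intro j hij hj
      have h1 := hWC.cl1 i hi j hij hj
      have h2 : nn w (ν.C i) (ν.L j) = Q.count (ν.C i) + (A.count (ν.C i)
          + (pre G (ν.L j)).count (ν.C i)) := by
        unfold nn; rw [hLpre j hj]; simp only [List.count_append]
      omega
    refine ⟨fun h => ?_, fun j hj => (hj0 j hj).2.2, fun j hij hj => ?_⟩
    · have h1 := hj1 (i + 1) (Nat.lt_succ_self i) (by omega)
      have h2 := MWK.count_pre_le G (ν.C i) (ν.L (i + 1))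
      have h3 := hwc (ν.C i)
      have h4 := List.count_pos_iff.2 h
      omega
    · exact List.count_pos_iff.1 (by rw [hj1 j hij hj]; omega)

end Pool.Agent.MWGX.H25
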